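import Pool.Agent.H67.Final

/-!
The least integer `m ≥ 1` such that every element of the group of increasing piecewise affine
homeomorphisms of the line is a product of `m` reversible elements is `2`.
-/

open Filter Topology Set

namespace Pool.Agent.Results.MP_701b78_al.LeastIsTwo

/-- `f` is locally affine at `x`: there is an open interval around `x` on which
`f t = a * t + b` for some constants `a`, `b`. -/
def LocallyAffineAt (f : ℝ → ℝ) (x : ℝ) : Prop :=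
  ∃ u v a b : ℝ, u < x ∧ x < v ∧ ∀ t ∈ Ioo u v, f t = a * t + b

/-- `f` is an increasing homeomorphism of the line, and the set of points at which it fails to
be locally affine has no accumulation point in the line. -/
def IsPLPlus (f : ℝ ≃ₜ ℝ) : Prop :=
  StrictMono f ∧ ∀ x : ℝ, ¬ AccPt x (𝓟 {y | ¬ LocallyAffineAt f y})

/-! ### Comparison with the working group -/

lemma locallyAffineAt_iff {f : ℝ → ℝ} {x : ℝ} :
    LocallyAffineAt f x ↔ H67.LocAff f x := by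
  constructor
  · rintro ⟨u, v, a, b, h1, h2, h3⟩
    exact ⟨a, b, by filter_upwards [Ioo_mem_nhds h1 h2] with t ht using h3 t ht⟩
  · rintro ⟨a, b, h⟩
    rw [Filter.Eventually, mem_nhds_iff_exists_Ioo_subset] at h
    obtain ⟨u, v, h1, h2⟩ := h
    exact ⟨u, v, a, b, h1.1, h1.2, fun t ht => h2 ht⟩

lemma noAcc_iff {f : ℝ → ℝ} {x : ℝ} :
    (¬ AccPt x (𝓟 {y | ¬ LocallyAffineAt f y})) ↔ ∀ᶠ y in 𝓝[≠] x, H67.LocAff f y := by
  rw [accPt_iff_frequently, not_frequently, eventually_nhdsWithin_iff]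
  constructor
  · intro h
    filter_upwards [h] with y hy hne
    rw [← locallyAffineAt_iff]
    by_contra h2
    exact hy ⟨hne, h2⟩
  · intro h
    filter_upwards [h] with y hy
    rintro ⟨h1, h2⟩
    apply h2
    rw [locallyAffineAt_iff]
    exact hy h1

/-- to the working group -/
noncomputable def toG (f : ℝ ≃ₜ ℝ) (hf : StrictMono f) : H67.G :=
  hf.orderIsoOfSurjective f f.surjective

lemma toG_mem {f : ℝ ≃ₜ ℝ} (hf : IsPLPlus f) : toG f hf.1 ∈ H67.PLo := by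
  intro x
  exact H67.germs_of_locAff f.continuous hf.1 (fun x => noAcc_iff.mp (hf.2 x)) x

/-- from the working group -/
def ofG (g : H67.G) : ℝ ≃ₜ ℝ := g.toHomeomorph

lemma ofG_mem {g : H67.G} (hg : g ∈ H67.PLo) : IsPLPlus (ofG g) := by
  refine ⟨g.strictMono, fun x => ?_⟩
  rw [noAcc_iff]
  exact H67.locAff_of_germs x (hg x).1 (hg x).2

lemma ofG_mul (g h : H67.G) : ofG (g * h) = ofG g * ofG h := rfl

lemma ofG_one : ofG 1 = 1 := rfl

lemma ofG_inv (g : H67.G) : ofG g⁻¹ = (ofG g)⁻¹ := rfl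

lemma ofG_toG (f : ℝ ≃ₜ ℝ) (hf : StrictMono f) : ofG (toG f hf) = f := by
  ext t; rfl

lemma IsPLPlus.mul {f g : ℝ ≃ₜ ℝ} (hf : IsPLPlus f) (hg : IsPLPlus g) : IsPLPlus (f * g) := by
  have h := ofG_mem (H67.PLo.mul_mem (toG_mem hf) (toG_mem hg))
  rwa [ofG_mul, ofG_toG, ofG_toG] at h

lemma IsPLPlus.one : IsPLPlus 1 := by
  have h := ofG_mem H67.PLo.one_mem
  rwa [ofG_one] at h

lemma IsPLPlus.inv {f : ℝ ≃ₜ ℝ} (hf : IsPLPlus f) : IsPLPlus f⁻¹ := by
  have h := ofG_mem (H67.PLo.inv_mem (toG_mem hf))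
  rwa [ofG_inv, ofG_toG] at h

/-- `PL⁺(ℝ)`: the group, under composition, of the increasing homeomorphisms of the line whose
points of failure of local affinity do not accumulate. -/
def PLPlus : Subgroup (ℝ ≃ₜ ℝ) where
  carrier := {f | IsPLPlus f}
  mul_mem' := IsPLPlus.mul
  one_mem' := IsPLPlus.one
  inv_mem' := IsPLPlus.inv

/-- `g` is reversible in the group `Γ`: it is conjugate to its inverse. -/
def IsReversible {Γ : Type*} [Group Γ] (g : Γ) : Prop := ∃ h : Γ, h * g * h⁻¹ = g⁻¹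

/-- `R^m(Γ)`: the set of products `r₁ r₂ ⋯ r_m` of `m` reversible elements of `Γ`. -/
def RProd (Γ : Type*) [Group Γ] (m : ℕ) : Set Γ :=
  {g | ∃ l : List Γ, l.length = m ∧ (∀ r ∈ l, IsReversible r) ∧ l.prod = g}

lemma reversible_of_Rev {a : H67.G} (ha : H67.Rev a) :
    ∃ r : PLPlus, IsReversible r ∧ (r : ℝ ≃ₜ ℝ) = ofG a := by
  obtain ⟨h1, h, hh, e⟩ := ha
  refine ⟨⟨ofG a, ofG_mem h1⟩, ⟨⟨ofG h, ofG_mem hh⟩, ?_⟩, rfl⟩
  apply Subtype.ext
  change ofG h * ofG a * (ofG h)⁻¹ = (ofG a)⁻¹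
  rw [← ofG_inv, ← ofG_inv, ← ofG_mul, ← ofG_mul, e]

/-- The answer to the question is `2`: it is the least `m ≥ 1` such that every element of
`PL⁺(ℝ)` is a product of `m` elements reversible in `PL⁺(ℝ)`. -/
theorem result : IsLeast {m : ℕ | 1 ≤ m ∧ RProd PLPlus m = Set.univ} 2 := by
  constructor
  · refine ⟨by norm_num, Set.eq_univ_of_forall fun g => ?_⟩
    obtain ⟨a, b, ha, hb, e⟩ := H67.all_R2 (toG_mem g.2)
    obtain ⟨r, hr, hr'⟩ := reversible_of_Rev ha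
    obtain ⟨s, hs, hs'⟩ := reversible_of_Rev hb
    refine ⟨[r, s], rfl, ?_, ?_⟩
    · intro x hx
      simp only [List.mem_cons, List.not_mem_nil, or_false] at hx
      rcases hx with rfl | rfl
      · exact hr
      · exact hs
    · apply Subtype.ext
      simp only [List.prod_cons, List.prod_nil, mul_one, Subgroup.coe_mul]
      rw [hr', hs', ← ofG_mul, ← e, ofG_toG]
  · rintro m ⟨hm1, hm⟩
    by_contra hlt
    have hm1' : m = 1 := by omega
    subst hm1'
    -- the unit translation is not reversible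
    let g : PLPlus := ⟨ofG (H67.tr 1), ofG_mem (H67.tr_mem 1)⟩
    have hg : g ∈ RProd PLPlus 1 := by rw [hm]; trivial
    obtain ⟨l, hl1, hl2, hl3⟩ := hg
    obtain ⟨r, rfl⟩ := List.length_eq_one_iff.mp hl1
    rw [List.prod_singleton] at hl3
    subst hl3
    obtain ⟨h, hh⟩ := hl2 g (by simp)
    have h1 : h * g = g⁻¹ * h := by rw [← hh]; group
    have h2 : (h : ℝ ≃ₜ ℝ) * ofG (H67.tr 1) = (ofG (H67.tr 1))⁻¹ * (h : ℝ ≃ₜ ℝ) :=
      congrArg Subtype.val h1
    have h3 := DFunLike.congr_fun h2 0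
    have h4 : ((h : ℝ ≃ₜ ℝ) * ofG (H67.tr 1)) 0 = (h : ℝ ≃ₜ ℝ) (0 + 1) := rfl
    have h5 : ((ofG (H67.tr 1))⁻¹ * (h : ℝ ≃ₜ ℝ)) 0 = (h : ℝ ≃ₜ ℝ) 0 - 1 := by
      rw [← ofG_inv]
      change (H67.tr 1)⁻¹ ((h : ℝ ≃ₜ ℝ) 0) = _
      rw [H67.tr_inv_app]
    rw [h4, h5] at h3
    have h6 : (h : ℝ ≃ₜ ℝ) 0 < (h : ℝ ≃ₜ ℝ) (0 + 1) := h.2.1 (by norm_num)
    linarith

end Pool.Agent.Results.MP_701b78_al.LeastIsTwo
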